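import Pool.Agent.T2h95.BB.Base

/-!
# Multiplicative Bloch–Beilinson filtrations: definitions
-/

open CategoryTheory CategoryTheory.Limits AlgebraicGeometry
open Pool.Agent.H914 Pool.Agent.H914.VarClass Pool.Agent.H914.VarClass.Obj
open Pool.Agent.R903 Pool.Agent.T2h95.BB

universe u v w

namespace Pool.Agent.T2h95.BM

variable {k : Type u} [Field k] {𝒱 : VarClass k} {C : ChowTheory.{u, v} 𝒱}
variable {W : WeilTheory.{u, v, w} C}

/-- The family `F^ν CH^j(X)` is decreasing in `ν` with `F^0 = CH^j(X)`, `F^1 = CH^j(X)_hom` and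
`F^(j + 1) = 0`. -/
structure IsFil (W : WeilTheory.{u, v, w} C) (X : 𝒱.Obj) (F : ℕ → ℕ → Sub C X) : Prop where
  anti : ∀ j ν, F j (ν + 1) ≤ F j ν
  zero : ∀ j, F j 0 = C.gr X j
  one : ∀ j x, x ∈ F j 1 ↔ IsHomTriv W X j x
  last : ∀ j, F j (j + 1) = ⊥

/-- `F^k CH^i(X) · F^l CH^j(X) ⊆ F^(k + l) CH^(i + j)(X)`. -/
def IsMul (C : ChowTheory.{u, v} 𝒱) (X : 𝒱.Obj) (F : ℕ → ℕ → Sub C X) : Prop :=
  ∀ i j k l, ∀ x ∈ F i k, ∀ y ∈ F j l, x * y ∈ F (i + j) (k + l)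

/-- `f^* F^ν CH^j(Y) ⊆ F^ν CH^j(X)`. -/
def IsPull (C : ChowTheory.{u, v} 𝒱) {X Y : 𝒱.Obj} (f : X ⟶ Y) (F : ℕ → ℕ → Sub C X)
    (G : ℕ → ℕ → Sub C Y) : Prop :=
  ∀ j ν, ∀ y ∈ G j ν, C.pull f y ∈ F j ν

/-- `f_* F^ν CH^j(X) ⊆ F^ν CH^(j + dim Y - dim X)(Y)`. -/
def IsPush (C : ChowTheory.{u, v} 𝒱) {X Y : 𝒱.Obj} (f : X ⟶ Y) (F : ℕ → ℕ → Sub C X)
    (G : ℕ → ℕ → Sub C Y) : Prop :=
  ∀ j j' ν, j + Y.dim = j' + X.dim → ∀ x ∈ F j ν, C.push f x ∈ G j' ν

/-- `Gr^ν CH^j(X)` depends only on `h^(2 j - ν)(X)`: self-correspondences of degree zero of `X` which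
act as zero on `H^(2 j - ν)(X)` act as zero on `Gr^ν CH^j(X)`. -/
def IsMotivic (W : WeilTheory.{u, v, w} C) (X : 𝒱.Obj) (F : ℕ → ℕ → Sub C X) : Prop :=
  ∀ j ν, ∀ γ : C.CH (X.prod X), IsCorr C X.dim γ → Kills W γ j ν → Maps C γ (F j ν) (F j (ν + 1))

/-- `F` is a **Bloch–Beilinson filtration**: multiplicative, stable under pull-backs and
push-forwards, and, if the Künneth standard conjecture holds, `Gr^ν CH^j(X)` depends only on
`h^(2 j - ν)(X)`. -/
structure IsMBB (W : WeilTheory.{u, v, w} C) (F : Fil C) : Prop where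
  isFil : ∀ X, IsFil W X (F X)
  isMul : ∀ X, IsMul C X (F X)
  isPull : ∀ (X Y : 𝒱.Obj) (f : X ⟶ Y), IsPull C f (F X) (F Y)
  isPush : ∀ (X Y : 𝒱.Obj) (f : X ⟶ Y), IsPush C f (F X) (F Y)
  isMotivic : W.Kunneth → ∀ X, IsMotivic W X (F X)

/-- The correspondence `γ` is homologically trivial; or the Künneth standard conjecture holds and `γ`
acts as zero on `H^(2 j - ν)(X)`. -/
def Raises (W : WeilTheory.{u, v, w} C) {X Y : 𝒱.Obj} (γ : C.CH (X.prod Y)) (j ν : ℕ) : Prop :=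
  W.cl (X.prod Y) γ = 0 ∨ (W.Kunneth ∧ Kills W γ j ν)

/-- `F ν`, `ν ≥ 1`, is a **weak filtration** on the single group `CH^J(Z)` for the set `T` of
self-correspondences of `Z`: `F 1` contains `CH^J(Z)_hom`; each `γ` in `T` of degree zero which is
homologically trivial (or which acts as zero on `H^(2 J - ν)(Z)`, if the Künneth standard conjecture
holds) maps `F ν` to `F (ν + 1)`; and each `δ` in `T` of degree `- r ≤ 0` maps `F ν` to zero if
`J < ν + r`. -/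
structure IsWeak (W : WeilTheory.{u, v, w} C) (Z : 𝒱.Obj) (J : ℕ) (T : Set (C.CH (Z.prod Z)))
    (F : ℕ → Sub C Z) : Prop where
  le : ∀ ν, F ν ≤ C.gr Z J
  one : ∀ x, IsHomTriv W Z J x → x ∈ F 1
  graded : ∀ ν, ∀ γ ∈ T, IsCorr C Z.dim γ → Raises W γ J ν → Maps C γ (F ν) (F (ν + 1))
  last : ∀ ν c r, c + r = Z.dim → J < ν + r → ∀ δ ∈ T, IsCorr C c δ → Maps C δ (F ν) ⊥

/-- `y = γ_* x` for some `x` in `M` and some self-correspondence `γ` of degree zero of `Z` which is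
homologically trivial (or which acts as zero on `H^(2 J - ν)(Z)`, if the Künneth standard conjecture
holds). -/
def IsProduct (W : WeilTheory.{u, v, w} C) (Z : 𝒱.Obj) (J ν : ℕ) (M : Sub C Z) (y : C.CH Z) :
    Prop :=
  ∃ γ : C.CH (Z.prod Z), IsCorr C Z.dim γ ∧ Raises W γ J ν ∧ ∃ x ∈ M, app C γ x = y

/-- `pow W Z J n` is the subspace `N ⋯ N CH^J(Z)_hom` of `CH^J(Z)`, with `n` factors, where `N` is the
ideal of the homologically trivial self-correspondences of degree zero of `Z`; if the Künneth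
standard conjecture holds, it is `I_(2 J - n) ⋯ I_(2 J - 2) I_(2 J - 1) CH^J(Z)_hom`, where `I_m` is
the ideal of the self-correspondences of degree zero of `Z` which act as zero on `H^m(Z)`. -/
noncomputable def pow (W : WeilTheory.{u, v, w} C) (Z : 𝒱.Obj) (J : ℕ) : ℕ → Sub C Z
  | 0 => Submodule.span ℚ {x | IsHomTriv W Z J x}
  | n + 1 => Submodule.span ℚ {y | IsProduct W Z J (n + 1) (pow W Z J n) y}

/-- **The criterion** for `CH^J(Z)`: for all `n` and `r` with `J < n + 1 + r`, all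
self-correspondences of `Z` of degree `- r` act as zero on `pow W Z J n`. -/
def Criterion (W : WeilTheory.{u, v, w} C) (Z : 𝒱.Obj) (J : ℕ) : Prop :=
  ∀ n r c, c + r = Z.dim → J < n + 1 + r → ∀ δ : C.CH (Z.prod Z), IsCorr C c δ →
    Maps C δ (pow W Z J n) ⊥

end Pool.Agent.T2h95.BM
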