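import Pool.Agent.T2h95.BM.Defs
import Pool.Agent.T2h95.BB.Main

/-!
# Multiplicative Bloch–Beilinson filtrations
-/

open CategoryTheory CategoryTheory.Limits AlgebraicGeometry
open Pool.Agent.H914 Pool.Agent.H914.VarClass Pool.Agent.H914.VarClass.Obj
open Pool.Agent.R903 Pool.Agent.T2h95.BB

universe u v w

namespace Pool.Agent.T2h95.BM

variable {k : Type u} [Field k] {𝒱 : VarClass k} {C : ChowTheory.{u, v} 𝒱}
variable {W : WeilTheory.{u, v, w} C} {X Y Z X' P : 𝒱.Obj}

/-! ### raising correspondences -/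

lemma act_eq_zero_of_cl {γ : C.CH (X.prod Y)} (h : W.cl _ γ = 0) (a : W.H X) : W.act γ a = 0 := by
  rw [W.act_apply, h, zero_mul, map_zero]

lemma Raises.kills {γ : C.CH (X.prod Y)} {j ν : ℕ} (h : Raises W γ j ν) : Kills W γ j ν := by
  rcases h with h | h
  · intro i _ a _
    exact act_eq_zero_of_cl h a
  · exact h.2

lemma raises_zero (j ν : ℕ) : Raises W (0 : C.CH (X.prod Y)) j ν := Or.inl (map_zero _)

lemma cl_comp_left {δ : C.CH (X.prod Y)} (γ : C.CH (Y.prod Z)) (h : W.cl _ δ = 0) :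
    W.cl _ (C.comp δ γ) = 0 := by
  rw [ChowTheory.comp, W.cl_push, W.cl_mul, W.cl_pull, h, map_zero, zero_mul, map_zero]

lemma cl_comp_right (δ : C.CH (X.prod Y)) {γ : C.CH (Y.prod Z)} (h : W.cl _ γ = 0) :
    W.cl _ (C.comp δ γ) = 0 := by
  rw [ChowTheory.comp, W.cl_push, W.cl_mul, W.cl_pull _ γ, h, map_zero, mul_zero, map_zero]

lemma raises_comp {δ : C.CH (X.prod Y)} {γ : C.CH (Y.prod Z)} {q j ν : ℕ}
    (hγ : γ ∈ C.gr (Y.prod Z) q) (h : Raises W δ j ν) : Raises W (C.comp δ γ) j ν := by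
  rcases h with h | h
  · exact Or.inl (cl_comp_left γ h)
  · exact Or.inr ⟨h.1, kills_comp hγ h.2⟩

/-! ### chains -/

/-- Chains passing through arbitrary varieties, with `n` steps. -/
inductive GChain (W : WeilTheory.{u, v, w} C) : ∀ X : 𝒱.Obj, ℕ → ℕ → C.CH X → Prop
  | start {X : 𝒱.Obj} {j : ℕ} {x : C.CH X} (hx : x ∈ homTriv W X j) : GChain W X j 0 x
  | step {X Y : 𝒱.Obj} {c j j' n : ℕ} {x : C.CH X} {γ : C.CH (X.prod Y)} (hx : GChain W X j n x)
      (hγ : γ ∈ C.gr (X.prod Y) c) (h : j + c = j' + X.dim) (hk : Raises W γ j (n + 1)) :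
      GChain W Y j' (n + 1) (C.act γ x)

lemma GChain.mem {j n : ℕ} {x : C.CH X} (h : GChain W X j n x) : x ∈ homTriv W X j := by
  induction h with
  | start hx => exact hx
  | step _ hγ h _ ih => exact hom_stable h hγ ih

lemma GChain.mem_gr {j n : ℕ} {x : C.CH X} (h : GChain W X j n x) : x ∈ C.gr X j :=
  homTriv_le W X j h.mem

/-- A chain can be transported to the group `CH^J(Z)`. -/
lemma GChain.transport (hP : C.Polarized) {j n : ℕ} {x : C.CH X} (h : GChain W X j n x)
    (h0 : x ≠ 0) : ∃ P : 𝒱.Obj, ∀ (Z : 𝒱.Obj) (J : ℕ), P.dim ≤ J →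
      (∀ s ≤ J, IsShift C s P Z) → IsShift C 0 X Z ∧ ∃ s, j + s = J ∧
        ∃ i ∈ C.gr (X.prod Z) (X.dim + s), ∃ c, c + s = Z.dim ∧ ∃ q ∈ C.gr (Z.prod X) c,
          (∀ x', C.act q (C.act i x') = x') ∧ C.act i x ∈ pow W Z J n := by
  induction h with
  | @start X j x hx =>
    refine ⟨X, fun Z J hJ hZ => ⟨hZ 0 (Nat.zero_le _), ?_⟩⟩
    have hj : j ≤ X.dim := by
      by_contra hj
      have h1 := homTriv_le W X j hx
      rw [C.gr_eq_bot X j (by omega), Submodule.mem_bot] at h1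
      exact h0 h1
    obtain ⟨s, hs⟩ := Nat.exists_eq_add_of_le (hj.trans hJ)
    obtain ⟨c, i, q, hc, hi, hq, hiq⟩ := hZ s (by omega)
    exact ⟨s, hs.symm, i, hi, c, hc, q, hq, hiq,
      Submodule.subset_span (hom_stable (by omega) hi hx)⟩
  | @step X X' c j j' n x γ hx hγ h hk ih =>
    have hx0 : x ≠ 0 := by
      rintro rfl
      exact h0 (map_zero _)
    obtain ⟨P, hP'⟩ := ih hx0
    refine ⟨P.prod X', fun Z J hJ hZ => ?_⟩
    rw [dim_prod] at hJ
    obtain ⟨-, s, hs, i, hi, cq, hcq, q, hq, hiq, hpow⟩ := hP' Z J (by omega)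
      (fun s hs => (isShift_fst hP P X' (Nat.zero_le _)).trans (hZ s hs))
    have hX' : ∀ s ≤ J, IsShift C s X' Z := fun s hs => (isShift_snd hP P X').trans (hZ s hs)
    have hj' : j' ≤ X'.dim := by
      by_contra hj'
      have h1 := C.act_mem hγ hx.mem_gr h
      rw [C.gr_eq_bot X' j' (by omega), Submodule.mem_bot] at h1
      exact h0 h1
    obtain ⟨s', hs'⟩ := Nat.exists_eq_add_of_le (show j' ≤ J by omega)
    obtain ⟨cq', i', q', hcq', hi', hq', hiq'⟩ := hX' s' (by omega)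
    refine ⟨hX' 0 (Nat.zero_le _), s', hs'.symm, i', hi', cq', hcq', q', hq', hiq', ?_⟩
    have h1 : C.comp γ i' ∈ C.gr (X.prod Z) (c + s') := C.comp_mem hγ hi' (by omega)
    have h2 : C.comp q (C.comp γ i') ∈ C.gr (Z.prod Z) Z.dim := C.comp_mem hq h1 (by omega)
    have h3 : Raises W (C.comp q (C.comp γ i')) J (n + 1) := by
      rcases hk with hk | ⟨hK, hk⟩
      · exact Or.inl (cl_comp_right _ (cl_comp_left _ hk))
      · refine Or.inr ⟨hK, ?_⟩
        intro l hl a ha
        rw [W.act_comp _ h1, W.act_comp _ hi']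
        by_cases hls : 2 * s ≤ l
        · obtain ⟨m, rfl⟩ := Nat.exists_eq_add_of_le hls
          rw [hk m (by omega) _ (act_memH W hq ha (by omega)), map_zero]
        · rw [act_eq_zeroH W hq ha (by omega), map_zero, map_zero]
    refine Submodule.subset_span ⟨_, h2, h3, _, hpow, ?_⟩
    change C.act _ (C.act i x) = _
    rw [C.act_comp, C.act_comp, hiq]

lemma GChain.eq_zero (hP : C.Polarized) {𝒟 : Set (𝒱.Obj × ℕ)} (hD : IsDominating C 𝒟)
    (hc : ∀ p ∈ 𝒟, Criterion W p.1 p.2) {j n : ℕ} {x : C.CH X}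
    (h : GChain W X j n x) (hj : j < n + 1) : x = 0 := by
  by_contra h0
  obtain ⟨P, hP'⟩ := h.transport hP h0
  obtain ⟨⟨Z, J⟩, hZ, hJ, hs⟩ := hD P
  obtain ⟨⟨c₀, i₀, q₀, hc₀, hi₀, hq₀, hiq₀⟩, s, hs', i, hi, c, hc', q, hq, hiq, hpow⟩ :=
    hP' Z J hJ hs
  have h1 : C.comp q i₀ ∈ C.gr (Z.prod Z) c := C.comp_mem hq hi₀ rfl
  have h2 : C.act (C.comp q i₀) (C.act i x) = 0 :=
    hc ⟨Z, J⟩ hZ n s c hc' (by simp only; omega) _ h1 _ hpow
  rw [C.act_comp, hiq] at h2
  apply h0
  have h3 : C.act q₀ (C.act i₀ x) = x := hiq₀ x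
  rw [← h3, h2, map_zero]

lemma GChain.zero (W : WeilTheory.{u, v, w} C) (X : 𝒱.Obj) (j n : ℕ) : GChain W X j n 0 := by
  induction n with
  | zero => exact GChain.start (Submodule.zero_mem _)
  | succ n ih =>
    have := GChain.step (Y := X) ih (γ := 0) (c := X.dim) (j' := j) (Submodule.zero_mem _) rfl
      (raises_zero _ _)
    rwa [map_zero] at this

lemma GChain.stable {j n : ℕ} {x : C.CH X} (h : GChain W X j n x) {c j' : ℕ}
    (hj : j + c = j' + X.dim) {γ : C.CH (X.prod Y)} (hγ : γ ∈ C.gr (X.prod Y) c) :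
    GChain W Y j' n (C.act γ x) := by
  cases h with
  | start hx => exact GChain.start (hom_stable hj hγ hx)
  | @step X₀ _ c₀ i _ μ x₀ δ hx hδ h0 hk =>
    rw [← C.act_comp]
    by_cases hc : X.dim ≤ c₀ + c
    · obtain ⟨r, hr⟩ : ∃ r, c₀ + c = r + X.dim := ⟨c₀ + c - X.dim, by omega⟩
      exact GChain.step hx (C.comp_mem hδ hγ hr) (by omega) (raises_comp hγ hk)
    · have h1 : x₀ = 0 := by
        have h2 := hx.mem_gr
        rw [C.gr_eq_bot X₀ i (by omega), Submodule.mem_bot] at h2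
        exact h2
      rw [h1, map_zero]
      exact GChain.zero W Y j' _

/-! ### the smallest filtration -/

/-- The smallest filtration. -/
noncomputable def minF (W : WeilTheory.{u, v, w} C) : Fil C
  | X, j, 0 => C.gr X j
  | X, j, n + 1 => Submodule.span ℚ {x | GChain W X j n x}

lemma minF_one (W : WeilTheory.{u, v, w} C) (X : 𝒱.Obj) (j : ℕ) :
    minF W X j 1 = homTriv W X j := by
  apply le_antisymm
  · exact Submodule.span_le.2 fun x hx => hx.mem
  · exact fun x hx => Submodule.subset_span (GChain.start hx)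

lemma minF_succ (W : WeilTheory.{u, v, w} C) (X : 𝒱.Obj) (j n : ℕ) :
    minF W X j (n + 1) = Submodule.span ℚ {x | GChain W X j n x} := rfl

lemma minF_stable {c j j' ν : ℕ} (h : j + c = j' + X.dim) {γ : C.CH (X.prod Y)}
    (hγ : γ ∈ C.gr (X.prod Y) c) {x : C.CH X} (hx : x ∈ minF W X j ν) :
    C.act γ x ∈ minF W Y j' ν := by
  match ν, hx with
  | 0, hx => exact C.act_mem hγ hx h
  | n + 1, hx =>
    have h1 : (minF W X j (n + 1)).map (C.act γ) ≤ minF W Y j' (n + 1) := by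
      rw [minF_succ, Submodule.map_span_le]
      intro x hx
      exact Submodule.subset_span (GChain.stable hx h hγ)
    exact h1 ⟨x, hx, rfl⟩

lemma minF_graded {c j j' ν : ℕ} (h : j + c = j' + X.dim) {γ : C.CH (X.prod Y)}
    (hγ : γ ∈ C.gr (X.prod Y) c) (hk : Raises W γ j ν) {x : C.CH X} (hx : x ∈ minF W X j ν) :
    C.act γ x ∈ minF W Y j' (ν + 1) := by
  match ν, hx, hk with
  | 0, hx, hk => rw [minF_one]; exact gr_graded h hγ hk.kills hx
  | n + 1, hx, hk =>
    have h1 : (minF W X j (n + 1)).map (C.act γ) ≤ minF W Y j' (n + 1 + 1) := by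
      rw [minF_succ, Submodule.map_span_le]
      intro x hx
      exact Submodule.subset_span (GChain.step hx hγ h hk)
    exact h1 ⟨x, hx, rfl⟩

lemma minF_anti (W : WeilTheory.{u, v, w} C) (X : 𝒱.Obj) (j ν : ℕ) :
    minF W X j (ν + 1) ≤ minF W X j ν := by
  match ν with
  | 0 => rw [minF_one]; exact homTriv_le W X j
  | n + 1 =>
    refine Submodule.span_le.2 ?_
    intro x hx
    have hx' : GChain W X j (n + 1) x := hx
    clear hx
    cases hx' with
    | step hy hγ h hk => exact Submodule.subset_span (hy.stable h hγ)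

lemma minF_eq_bot
    (hc : ∀ (X : 𝒱.Obj) (j n : ℕ) (x : C.CH X), GChain W X j n x → j < n + 1 → x = 0)
    (X : 𝒱.Obj) {j ν : ℕ} (h : j < ν) : minF W X j ν = ⊥ := by
  obtain ⟨n, rfl⟩ : ∃ n, ν = n + 1 := ⟨ν - 1, by omega⟩
  rw [eq_bot_iff]
  exact Submodule.span_le.2 fun x hx => hc X j n x hx h

/-! ### external products -/

/-- The correspondence `γ × Δ_Y`. -/
noncomputable def opN (C : ChowTheory.{u, v} 𝒱) {X' X : 𝒱.Obj} (γ : C.CH (X'.prod X))
    (Y : 𝒱.Obj) : C.CH ((X'.prod Y).prod (X.prod Y)) :=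
  C.span (p13 X' X Y) (snd X' (X.prod Y)) (C.pull (p12 X' X Y) γ)

lemma opN_mem {γ : C.CH (X'.prod X)} {c : ℕ} (hγ : γ ∈ C.gr (X'.prod X) c) :
    opN C γ Y ∈ C.gr ((X'.prod Y).prod (X.prod Y)) (c + Y.dim) :=
  C.span_mem _ _ (C.pull_mem _ hγ) (by simp only [dim_prod]; omega)

lemma act_opN_ext (γ : C.CH (X'.prod X)) (x : C.CH X') (y : C.CH Y) :
    C.act (opN C γ Y) (C.ext x y) = C.ext (C.act γ x) y := by
  rw [opN, C.act_span, ChowTheory.ext, ChowTheory.ext, C.act_apply, C.bc1, ← C.push_mul,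
    C.pull_mul, C.pull_mul, ← C.pull_comp, ← C.pull_comp, ← C.pull_comp, ← C.pull_comp, p12_fst,
    p13_fst, p13_snd, mul_assoc]

lemma actH_opN (γ : C.CH (X'.prod X)) (a : W.H X') (b : W.H Y) :
    W.act (opN C γ Y) (W.map (fst X' Y) a * W.map (snd X' Y) b) =
      W.map (fst X Y) (W.act γ a) * W.map (snd X Y) b := by
  rw [opN, W.act_span, W.act_apply, W.bc1, ← W.push_mul, W.cl_pull,
    W.map_mul', W.map_mul', ← W.map_comp, ← W.map_comp, ← W.map_comp, ← W.map_comp, p12_fst,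
    p13_fst, p13_snd, mul_assoc]

lemma cl_span {A B : 𝒱.Obj} (a : P ⟶ A) (b : P ⟶ B) {ω : C.CH P} (h : W.cl P ω = 0) :
    W.cl _ (C.span a b ω) = 0 := by
  rw [ChowTheory.span, W.cl_push, h, map_zero]

lemma cl_pull_zero (f : X ⟶ Y) {y : C.CH Y} (h : W.cl Y y = 0) : W.cl X (C.pull f y) = 0 := by
  rw [W.cl_pull, h, map_zero]

/-- The correspondence `y ↦ x × y`. -/
noncomputable def extL (C : ChowTheory.{u, v} 𝒱) {X : 𝒱.Obj} (x : C.CH X) (Y : 𝒱.Obj) :
    C.CH (Y.prod (X.prod Y)) :=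
  C.span (snd X Y) (𝟙 (X.prod Y)) (C.pull (fst X Y) x)

lemma extL_mem {x : C.CH X} {i : ℕ} (hx : x ∈ C.gr X i) :
    extL C x Y ∈ C.gr (Y.prod (X.prod Y)) (i + Y.dim) :=
  C.span_mem _ _ (C.pull_mem _ hx) (by omega)

lemma act_extL (x : C.CH X) (y : C.CH Y) : C.act (extL C x Y) y = C.ext x y := by
  rw [extL, C.act_span, C.push_id, ChowTheory.ext]

/-- The composite of `id × π` and `γ × id`. -/
lemma kills_mixed {γ : C.CH (X'.prod X)} {c : ℕ} (hγ : γ ∈ C.gr (X'.prod X) c)
    {π : C.CH (Y.prod Y)} (hπ : π ∈ C.gr (Y.prod Y) Y.dim) {b₀ : ℕ}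
    (hb : IsProjector (W.gr Y) b₀ (W.act π)) {i' j m l : ℕ} (hl : b₀ + l = 2 * j)
    (hk : Kills W γ i' m) :
    Kills W (C.comp (C.opL X' π) (opN C γ Y)) (i' + j) (m + l) := by
  intro e he a₀ ha₀
  have key : ∀ c, W.act (C.comp (C.opL X' π) (opN C γ Y))
      (proj (W.isInternal (X'.prod Y)) e c) = 0 := by
    intro c
    refine W.kunneth_induction (p := fun c => W.act (C.comp (C.opL X' π) (opN C γ Y))
      (proj (W.isInternal (X'.prod Y)) e c) = 0) ?_ ?_ c
    · intro a b ha hb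
      rw [map_add, map_add, ha, hb, add_zero]
    · intro p q a ha b hb'
      have hab : W.map (fst X' Y) a * W.map (snd X' Y) b ∈ W.gr (X'.prod Y) (p + q) :=
        W.mul_mem (W.map_mem _ ha) (W.map_mem _ hb')
      by_cases hpq : p + q = e
      · subst hpq
        rw [proj_same _ hab, W.act_comp _ (opN_mem hγ), W.act_opL hπ ha, actH_opN]
        by_cases hq : q = b₀
        · rw [hk p (by omega) a ha, map_zero, zero_mul]
        · have : W.act π b = 0 := by
            have := hb q b hb'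
            rwa [if_neg hq] at this
          rw [this, map_zero, mul_zero]
      · rw [proj_ne _ hab hpq, map_zero]
  have h1 := key a₀
  rwa [proj_same _ ha₀] at h1

theorem ext_mem_minF
    (hc : ∀ (X : 𝒱.Obj) (j n : ℕ) (x : C.CH X), GChain W X j n x → j < n + 1 → x = 0)
    {i n : ℕ} {x : C.CH X} (h : GChain W X i n x) :
    ∀ (Y : 𝒱.Obj) (j l : ℕ), ∀ y ∈ minF W Y j l,
      C.ext x y ∈ minF W (X.prod Y) (i + j) (n + l + 1) := by
  induction h with
  | @start X i x hx =>
    intro Y j l y hy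
    rw [← act_extL, zero_add]
    exact minF_graded (by omega) (extL_mem hx.1)
      (Or.inl (cl_span _ _ (cl_pull_zero _ hx.2))) hy
  | @step X' X c i' i m x' γ hx' hγ h hk ih =>
    intro Y j l y hy
    have hdeg : (i' + j) + (c + Y.dim) = (i + j) + (X'.prod Y).dim := by
      rw [dim_prod]; omega
    rcases hk with hk | ⟨hK, hk⟩
    · rw [← act_opN_ext]
      have h1 := minF_graded hdeg (opN_mem hγ (Y := Y))
        (Or.inl (cl_span _ _ (cl_pull_zero _ hk))) (ih Y j l y hy)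
      rwa [show m + l + 1 + 1 = m + 1 + l + 1 by omega] at h1
    · by_cases hjl : j < l
      · rw [minF_eq_bot hc Y hjl, Submodule.mem_bot] at hy
        have h0 : C.ext (C.act γ x') y = 0 := by
          rw [hy, ChowTheory.ext, map_zero, mul_zero]
        rw [h0]
        exact Submodule.zero_mem _
      · obtain ⟨π, hπ, hproj⟩ := hK Y (2 * j - l)
        have hσ : C.diagC Y - π ∈ C.gr (Y.prod Y) Y.dim :=
          Submodule.sub_mem _ (C.diagC_mem Y) hπ
        have hσk : Kills W (C.diagC Y - π) j l := by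
          intro e he a ha
          rw [W.act_sub, LinearMap.sub_apply, W.act_diagC]
          have := hproj e a ha
          rw [if_pos (by omega)] at this
          rw [this, sub_self]
        have hσy : C.act (C.diagC Y - π) y ∈ minF W Y j (l + 1) :=
          minF_graded rfl hσ (Or.inr ⟨hK, hσk⟩) hy
        have hy' : y = C.act π y + C.act (C.diagC Y - π) y := by
          rw [C.act_sub, LinearMap.sub_apply, C.act_diagC]
          abel
        have hext : C.ext (C.act γ x') y = C.ext (C.act γ x') (C.act π y) +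
            C.ext (C.act γ x') (C.act (C.diagC Y - π) y) := by
          conv_lhs => rw [hy']
          rw [ChowTheory.ext, map_add, mul_add]
          rfl
        rw [hext]
        refine Submodule.add_mem _ ?_ ?_
        · rw [← act_opN_ext, ← C.act_opL_ext, ← C.act_comp]
          have h1 : C.comp (C.opL X' π) (opN C γ Y) ∈
              C.gr ((X'.prod Y).prod (X.prod Y)) (c + Y.dim) :=
            C.comp_mem (C.opL_mem hπ) (opN_mem hγ) (by omega)
          have h2 := kills_mixed hγ hπ hproj (l := l) (j := j) (by omega) hk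
          have h3 := minF_graded hdeg h1 (ν := m + l + 1)
            (Or.inr ⟨hK, by rwa [show m + l + 1 = m + 1 + l by omega]⟩) (ih Y j l y hy)
          rwa [show m + l + 1 + 1 = m + 1 + l + 1 by omega] at h3
        · rw [← act_opN_ext]
          have h1 := minF_stable hdeg (opN_mem hγ (Y := Y)) (ih Y j (l + 1) _ hσy)
          rwa [show m + (l + 1) + 1 = m + 1 + l + 1 by omega] at h1

theorem minF_ext
    (hc : ∀ (X : 𝒱.Obj) (j n : ℕ) (x : C.CH X), GChain W X j n x → j < n + 1 → x = 0)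
    {i j k' l : ℕ} {x : C.CH X} {y : C.CH Y} (hx : x ∈ minF W X i k') (hy : y ∈ minF W Y j l) :
    C.ext x y ∈ minF W (X.prod Y) (i + j) (k' + l) := by
  cases k' with
  | zero =>
    rw [← act_extL, zero_add]
    exact minF_stable (by omega) (extL_mem hx) hy
  | succ n =>
    rw [minF_succ] at hx
    induction hx using Submodule.span_induction with
    | mem x hx =>
      have := ext_mem_minF hc hx Y j l y hy
      rwa [show n + l + 1 = n + 1 + l by omega] at this
    | zero =>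
      have : C.ext (0 : C.CH X) y = 0 := by rw [ChowTheory.ext, map_zero, zero_mul]
      rw [this]
      exact Submodule.zero_mem _
    | add x x' _ _ h1 h2 =>
      have : C.ext (x + x') y = C.ext x y + C.ext x' y := by
        rw [ChowTheory.ext, map_add, add_mul]; rfl
      rw [this]
      exact Submodule.add_mem _ h1 h2
    | smul a x _ h1 =>
      have : C.ext (a • x) y = a • C.ext x y := by
        rw [ChowTheory.ext, map_smul, smul_mul_assoc]; rfl
      rw [this]
      exact Submodule.smul_mem _ _ h1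

theorem isMBB_minF
    (hc : ∀ (X : 𝒱.Obj) (j n : ℕ) (x : C.CH X), GChain W X j n x → j < n + 1 → x = 0) :
    IsMBB W (minF W) where
  isFil X :=
    { anti := fun j ν => minF_anti W X j ν
      zero := fun _ => rfl
      one := fun j x => by rw [minF_one]; exact Iff.rfl
      last := fun j => minF_eq_bot hc X (by omega) }
  isMul X i j k' l x hx y hy := by
    rw [← C.pull_diag_ext, ← C.act_cograph]
    exact minF_stable rfl (C.cograph_mem _) (minF_ext hc hx hy)
  isPull X Y f j ν y hy := by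
    rw [← C.act_cograph]
    exact minF_stable rfl (C.cograph_mem _) hy
  isPush X Y f j j' ν h x hx := by
    rw [← C.act_graph]
    exact minF_stable h (C.graph_mem _) hx
  isMotivic hK X j ν γ hγ hk x hx := minF_graded rfl hγ (Or.inr ⟨hK, hk⟩) hx

/-! ### from filtrations to weak filtrations -/

lemma IsMBB.bot {F : Fil C} (h : IsMBB W F) (X : 𝒱.Obj) {j ν : ℕ} (hj : j < ν) :
    F X j ν = ⊥ := by
  rw [eq_bot_iff, ← (h.isFil X).last j]
  exact antitone_nat_of_succ_le (f := F X j) ((h.isFil X).anti j) hj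

lemma IsMBB.le_gr {F : Fil C} (h : IsMBB W F) (X : 𝒱.Obj) (j ν : ℕ) : F X j ν ≤ C.gr X j := by
  rw [← (h.isFil X).zero j]
  exact antitone_nat_of_succ_le (f := F X j) ((h.isFil X).anti j) (Nat.zero_le ν)

lemma IsMBB.act_mem {F : Fil C} (h : IsMBB W F) {c j j' μ ν : ℕ} (hj : j + c = j' + X.dim)
    {γ : C.CH (X.prod Y)} (hγ : γ ∈ F (X.prod Y) c μ) {x : C.CH X} (hx : x ∈ F X j ν) :
    C.act γ x ∈ F Y j' (μ + ν) := by
  rw [C.act_apply]
  refine h.isPush _ _ (snd X Y) (c + j) j' (μ + ν) (by rw [dim_prod]; omega) _ ?_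
  exact h.isMul _ c j μ ν _ hγ _ (h.isPull _ _ (fst X Y) j ν x hx)

lemma IsMBB.isWeak {F : Fil C} (h : IsMBB W F) (Z : 𝒱.Obj) (J : ℕ)
    (T : Set (C.CH (Z.prod Z))) : IsWeak W Z J T (F Z J) where
  le ν := h.le_gr Z J ν
  one := fun x hx => ((h.isFil Z).one J x).2 hx
  graded ν γ _ hγ hk x hx := by
    rcases hk with hk | ⟨hK, hk⟩
    · have h1 : γ ∈ F (Z.prod Z) Z.dim 1 := ((h.isFil _).one _ _).2 ⟨hγ, hk⟩
      have h2 := h.act_mem rfl h1 hx
      rwa [add_comm] at h2
    · exact h.isMotivic hK Z J ν γ hγ hk x hx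
  last ν c r hc hJ δ _ hδ x hx := by
    by_cases hr : r ≤ J
    · obtain ⟨m, rfl⟩ := Nat.exists_eq_add_of_le hr
      have h0 : δ ∈ F (Z.prod Z) c 0 := by rw [(h.isFil _).zero]; exact hδ
      have h1 := h.act_mem (j' := m) (by omega) h0 hx
      rwa [h.bot Z (by omega), Submodule.mem_bot] at h1
    · exact C.act_eq_zero hδ (h.le_gr Z J ν hx) (by omega)

lemma IsWeak.mono {J : ℕ} {S T : Set (C.CH (Z.prod Z))} {F : ℕ → Submodule ℚ (C.CH Z)}
    (h : IsWeak W Z J T F) (hST : S ⊆ T) : IsWeak W Z J S F where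
  le := h.le
  one := h.one
  graded ν γ hγ := h.graded ν γ (hST hγ)
  last ν c r hc hJ δ hδ := h.last ν c r hc hJ δ (hST hδ)

lemma pow_exists_finite {J n : ℕ} {x : C.CH Z} (h : x ∈ pow W Z J n) :
    ∃ T : Set (C.CH (Z.prod Z)), T.Finite ∧ ∀ F, IsWeak W Z J T F → x ∈ F (n + 1) := by
  induction n generalizing x with
  | zero => exact ⟨∅, Set.finite_empty, fun F hF => Submodule.span_le.2 hF.one h⟩
  | succ n ih =>
    have h' : x ∈ Submodule.span ℚ {y | IsProduct W Z J (n + 1) (pow W Z J n) y} := h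
    induction h' using Submodule.span_induction with
    | mem y hy =>
      obtain ⟨γ, hγ, hk, x, hx, rfl⟩ := hy
      obtain ⟨T, hT, hF⟩ := ih hx
      refine ⟨insert γ T, hT.insert γ, fun F hF' => ?_⟩
      exact hF'.graded (n + 1) γ (Set.mem_insert _ _) hγ hk x
        (hF F (hF'.mono (Set.subset_insert _ _)))
    | zero => exact ⟨∅, Set.finite_empty, fun F _ => Submodule.zero_mem _⟩
    | add y z hy hz ihy ihz =>
      obtain ⟨T, hT, hF⟩ := ihy hy
      obtain ⟨T', hT', hF'⟩ := ihz hz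
      exact ⟨T ∪ T', hT.union hT', fun F h => Submodule.add_mem _
        (hF F (h.mono Set.subset_union_left)) (hF' F (h.mono Set.subset_union_right))⟩
    | smul a y hy ihy =>
      obtain ⟨T, hT, hF⟩ := ihy hy
      exact ⟨T, hT, fun F h => Submodule.smul_mem _ _ (hF F h)⟩

/-! ### the main theorem -/

theorem criterion_of_weak {J : ℕ}
    (h : ∀ T : Set (C.CH (Z.prod Z)), T.Finite → ∃ F, IsWeak W Z J T F) : Criterion W Z J := by
  intro n r c hc hJ δ hδ x hx
  obtain ⟨T, hT, hF⟩ := pow_exists_finite hx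
  obtain ⟨F, hF'⟩ := h (insert δ T) (hT.insert δ)
  exact hF'.last (n + 1) c r hc hJ δ (Set.mem_insert _ _) hδ x
    (hF F (hF'.mono (Set.subset_insert _ _)))

theorem tfae (W : WeilTheory.{u, v, w} C) (hP : C.Polarized)
    {𝒟 : Set (𝒱.Obj × ℕ)} (hD : IsDominating C 𝒟) :
    List.TFAE [
      ∃ F, IsMBB W F,
      ∀ p ∈ 𝒟, ∀ T : Set (C.CH (p.1.prod p.1)), T.Finite → ∃ F, IsWeak W p.1 p.2 T F,
      ∀ p ∈ 𝒟, Criterion W p.1 p.2] := by
  tfae_have 1 → 2 := by
    rintro ⟨F, hF⟩ p _ T _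
    exact ⟨_, hF.isWeak p.1 p.2 T⟩
  tfae_have 2 → 3 := fun h p hp => criterion_of_weak (h p hp)
  tfae_have 3 → 1 := fun h => ⟨_, isMBB_minF fun X j n x hx hj => hx.eq_zero hP hD h hj⟩
  tfae_finish

end Pool.Agent.T2h95.BM
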